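import Pool.Agent.H65.EH.Final

/-!
# Ehrhart positivity of the base-`r` simplices: which dimensions

The answer to Q1 of MP_ffae75_co is negative, and the dimensions are classified: for `d ≤ 4` every
`B_(r,d)` is Ehrhart positive, for `d ≥ 5` only finitely many are.

Proof. With `R = r - 1` and `s = t - ∑ x` the base-`r` digits of `R s` give a bijection of the lattice
points of `t B_(r,d)` with the families of pairs `(y_i, c_i)`, `i = 1, …, d`, `y_i ≥ 0`,
`0 ≤ c_i ≤ R`, `∑ (R y_i + c_i) ≤ R t`. Their generating function is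
`(1/(1-x) + x^R/(1-x^R))^d / (1-x)`, so the Ehrhart polynomial is
`∑_j binom(d, j) S^j [n ↦ binom(R n + d - j, d - j)]`, where `S` is summation over `n < t`. The
coefficient of `t^(d-4)` is a polynomial in `R` of degree `d - 1` whose leading coefficient comes
from `j = 1` and is `binom(d, 4) B_4 / (d-1)! < 0` (`B_4 = -1/30`). In dimension at most five there
are closed forms.
-/

set_option autoImplicit false

namespace Pool.Agent.Results.MP_ffae75_co.DimensionAtMostFour

open Polynomial Filter Topology Pool.Agent.H65.EH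

/-- For `d ≥ 1` all base-`r` `d`-simplices are Ehrhart positive if and only if `d ≤ 4`; for `d ≥ 5`
only finitely many of them are, since the coefficient of `t^(d-4)` of the Ehrhart polynomial of
`B_(r,d)` is asymptotic to `-d r^(d-1) / (720 (d-4)!)` as `r → ∞`. In dimension five `B_(r,5)` is
Ehrhart positive if and only if `r ≤ 13`; for `r = 14` the coefficient of `t` is `-268/15`. -/
theorem result :
    (∀ d : ℕ, 1 ≤ d →
      ((∀ r : ℕ, 2 ≤ r → EhrhartPositive (baseSimplex r d)) ↔ d ≤ 4)) ∧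
    (∀ d : ℕ, 5 ≤ d → {r : ℕ | 2 ≤ r ∧ EhrhartPositive (baseSimplex r d)}.Finite) ∧
    (∀ d : ℕ, 5 ≤ d → ∃ p : ℕ → ℚ[X],
      (∀ r : ℕ, 2 ≤ r → IsEhrhartPolynomial (baseSimplex r d) (p r)) ∧
      Tendsto (fun r : ℕ => (((p r).coeff (d - 4) : ℚ) : ℝ) / (r : ℝ) ^ (d - 1)) atTop
        (𝓝 (-(d : ℝ) / (720 * ((d - 4).factorial : ℝ))))) ∧
    (∀ r : ℕ, 2 ≤ r → (EhrhartPositive (baseSimplex r 5) ↔ r ≤ 13)) ∧
    (∃ p : ℚ[X], IsEhrhartPolynomial (baseSimplex 14 5) p ∧ p.coeff 1 = -268 / 15) :=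
  ⟨pos_iff, finite_pos, asymptotic, five_iff, old⟩

end Pool.Agent.Results.MP_ffae75_co.DimensionAtMostFour
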